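import Mathlib
import Pool.Agent.Q190.KS.Main

set_option autoImplicit false

/-!
# Every non-smooth aperiodic countable Borel equivalence relation has a minimal `K_σ` realization

By the Glimm-Effros dichotomy `E` is Borel isomorphic to the disjoint sum of `E` and (a copy of)
the compressible tail relation, so the sum is realized. A greedy matching gives disjoint complete
sections `B_d` covering the space and Borel retractions `f_d` onto `B_d` inside `E` which are
finite-to-one. In a suitable zero-dimensional Polish topology the involutions generating `E`
(Feldman-Moore) and the `f_d` are continuous and the `f_d` are proper, and the space has a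
compactification with countable remainder. Blow up the points of a countable dense class of
`ℕ × 2^ℕ` with the tail relation, putting the closure of `B_d` on the `d`-th point, such that near
all blown up points the space accumulates along one and the same sequence `(f_d (x_n))_d`.
Properness shows that the closures of the translations, and of the relations
`{(f_d x, f_{d'} (s x))}`, only add pairs of points of the (countable) remainder.
-/

namespace Pool.Agent.Results.MP_daea50_lc.MinimalKSigma

universe u

/-- Every aperiodic countable Borel equivalence relation on an uncountable standard Borel space
which has no Borel transversal is Borel isomorphic to an equivalence relation on a Polish space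
which is a countable union of compact sets and all of whose classes are dense. -/
theorem result {X : Type u} [MeasurableSpace X] [StandardBorelSpace X] (hX : ¬ Countable X)
    (E : X → X → Prop) (hE : Equivalence E) (hm : MeasurableSet {p : X × X | E p.1 p.2})
    (hc : ∀ x, {y | E x y}.Countable) (ha : ∀ x, {y | E x y}.Infinite)
    (hns : ¬ ∃ T : Set X, MeasurableSet T ∧ ∀ x, ∃! y, y ∈ T ∧ E x y) :
    ∃ (Y : Type) (_ : TopologicalSpace Y) (_ : PolishSpace Y) (_ : MeasurableSpace Y)
      (_ : BorelSpace Y) (f : X ≃ᵐ Y),
      (∃ K : ℕ → Set (Y × Y), (∀ n, IsCompact (K n)) ∧
        {p : Y × Y | E (f.symm p.1) (f.symm p.2)} = ⋃ n, K n) ∧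
      ∀ y, Dense {z | E (f.symm y) (f.symm z)} :=
  Pool.Agent.Q190.KS.main' hX E hE hm hc ha hns

end Pool.Agent.Results.MP_daea50_lc.MinimalKSigma
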